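import Mathlib
import Pool.Agent.Lib.MP_0016c7_nt.Group3

/-!
Explicit Landau-Page theorem for products of quadratic `L`-functions.  `S` is the set of nontrivial
elements of a finite group of quadratic characters (for instance `S = {χ}`, or
`S = {χ₁, χ₂, χ₁ χ₂}`), `P = ∏ L(s, χ)` over `S` and `D` the product of the conductors.
-/

theorem Pool.Agent.MP0016c7.Old.multiquadraticPage
    (N : ℕ) [NeZero N] (S : Finset (DirichletCharacter ℂ N)) (hne : S.Nonempty)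
    (h1 : 1 ∉ S) (hsq : ∀ χ ∈ S, χ ^ 2 = 1) (hmul : ∀ χ ∈ S, ∀ ψ ∈ S, χ ≠ ψ → χ * ψ ∈ S)
    (D : ℝ) (hD : D = ∏ χ ∈ S, (χ.conductor : ℝ))
    (P : ℂ → ℂ) (hP : P = fun w => ∏ χ ∈ S, χ.LFunction w) :
    (∀ s t : ℝ, 1 / 2 < s → s < t → t < 1 →
      (1 - 2 / Real.log D ≤ s ∨ (1 - t) * D ^ (t / 2) ≤ (1 - s) * D ^ (s / 2)) →
      0 ≤ (P s).re → 0 < (P t).re) ∧
    (∀ β : ℝ, 1 / 2 < β → β < 1 → P β = 0 →
      (1 - 2 / Real.log D ≤ β → deriv P β ≠ 0) ∧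
      ((1 - β) * D ^ ((β - 1 / 2) / 2) ≤ 1 / 2 →
        (∀ s : ℝ, 1 / 2 < s → s < β → (P s).re < 0) ∧
        (∀ s : ℝ, β < s → s < 1 → 0 < (P s).re))) :=
  Pool.Agent.MP0016c7.group_main hne h1 hsq hmul hD hP
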